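import Pool.Agent.helper95.PY2.Spec

open Finset

namespace Pool.Agent.PY2

theorem NUS_cell {p : ℕ} [Fact p.Prime] (B : Finset (ZMod p)) (L : ℕ) :
    ∑ j ∈ range p, ((cl B L j).card : ℝ) = B.card := by
  have h : B.card = ∑ j ∈ range p, (B.filter fun b => b.val / L = j).card :=
    Finset.card_eq_sum_card_fiberwise fun b _ => by
      simp only [coe_range, Set.mem_Iio]
      exact (Nat.div_le_self _ _).trans_lt (ZMod.val_lt b)
  rw [h]
  push_cast
  rfl

theorem NUS_pair {p : ℕ} [Fact p.Prime] {B : Finset (ZMod p)} {L j : ℕ} {z : ZMod p × ZMod p}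
    (hL : 1 ≤ L) (hz : z ∈ pr B L j) : ∃ h : ℕ, 1 ≤ h ∧ h < L ∧ z.2 = z.1 + (h : ZMod p) := by
  unfold pr cl at hz
  simp only [mem_filter, mem_product] at hz
  obtain ⟨⟨⟨-, h1⟩, -, h2⟩, h3⟩ := hz
  refine ⟨z.2.val - z.1.val, by omega, ?_, ?_⟩
  · have h4 := Nat.div_add_mod z.1.val L
    have h5 := Nat.div_add_mod z.2.val L
    have h6 := Nat.mod_lt z.2.val (by omega : L > 0)
    have h7 := Nat.mod_lt z.1.val (by omega : L > 0)
    rw [h1] at h4
    rw [h2] at h5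
    omega
  · rw [Nat.cast_sub h3.le, ZMod.natCast_zmod_val, ZMod.natCast_zmod_val]
    ring

theorem NUS_count {p : ℕ} [Fact p.Prime] (N : ℕ) (f : ZMod p → ℝ) (b d : ZMod p) (hd : d ≠ 0) :
    ∑ n ∈ range N, f (((n : ZMod p) + b) / d) =
      ∑ x : ZMod p, (((range N).filter fun n : ℕ => ((n : ℕ) : ZMod p) + b = x * d).card : ℝ) * f x := by
  have h1 : ∀ x : ZMod p, (((range N).filter fun n : ℕ => ((n : ℕ) : ZMod p) + b = x * d).card : ℝ) *
      f x = ∑ n ∈ range N, if ((n : ZMod p) + b) / d = x then f x else 0 := by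
    intro x
    rw [← Finset.sum_filter, Finset.sum_const, nsmul_eq_mul]
    have h2 : ((range N).filter fun n : ℕ => ((n : ℕ) : ZMod p) + b = x * d) =
        ((range N).filter fun n : ℕ => ((n : ZMod p) + b) / d = x) := by
      refine Finset.filter_congr fun n _ => ?_
      rw [div_eq_iff hd]
    rw [h2]
  rw [Finset.sum_congr rfl fun x _ => h1 x, Finset.sum_comm]
  refine Finset.sum_congr rfl fun n _ => ?_
  rw [Finset.sum_ite_eq, if_pos (mem_univ _)]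

theorem NUS (h1 : SHF_stmt) : NUS_stmt := by
  intro p _ χ N L V B hL hLp
  have hV : (0 : ℝ) ≤ V := Nat.cast_nonneg V
  -- one pair
  have hpair : ∀ j, ∀ z ∈ pr B L j, (V : ℝ) * ‖Gc χ N z.1 z.2‖ ≤
      ∑ x : ZMod p, (((range N).filter fun n : ℕ => ((n : ℕ) : ZMod p) + z.1 = x * (z.2 - z.1)).card : ℝ) *
        Ph χ V x + 4 * L * (V : ℝ) ^ 2 := by
    intro j z hz
    obtain ⟨h, hh1, hhL, hz2⟩ := NUS_pair hL hz
    have h2 := h1 p χ N V h z.1 hh1 (by omega)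
    rw [← hz2] at h2
    have hd : z.2 - z.1 = (h : ZMod p) := by rw [hz2]; ring
    have hd0 : (h : ZMod p) ≠ 0 := by
      intro h0
      rw [ZMod.natCast_eq_zero_iff] at h0
      have := Nat.le_of_dvd (by omega) h0
      omega
    rw [NUS_count N (Ph χ V) z.1 _ hd0] at h2
    rw [hd]
    refine h2.trans ?_
    have h3 : (h : ℝ) ≤ L := by exact_mod_cast hhL.le
    have h4 : 4 * (h : ℝ) * (V : ℝ) ^ 2 ≤ 4 * L * (V : ℝ) ^ 2 := by gcongr
    linarith
  have hnu : ∑ x : ZMod p, nu B N L x * Ph χ V x =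
      ∑ j ∈ range p, ((cl B L j).card : ℝ)⁻¹ * ∑ z ∈ pr B L j, ∑ x : ZMod p,
        (((range N).filter fun n : ℕ => ((n : ℕ) : ZMod p) + z.1 = x * (z.2 - z.1)).card : ℝ) *
        Ph χ V x := by
    unfold nu
    simp_rw [Finset.sum_mul]
    rw [Finset.sum_comm]
    refine Finset.sum_congr rfl fun j _ => ?_
    simp_rw [mul_assoc]
    rw [← Finset.mul_sum]
    congr 1
    simp_rw [Finset.sum_mul]
    rw [Finset.sum_comm]
  rw [hnu, Finset.mul_sum]
  have hcell : ∀ j ∈ range p, (V : ℝ) * (((cl B L j).card : ℝ)⁻¹ * ∑ z ∈ pr B L j, ‖Gc χ N z.1 z.2‖) ≤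
      ((cl B L j).card : ℝ)⁻¹ * ∑ z ∈ pr B L j, ∑ x : ZMod p,
        (((range N).filter fun n : ℕ => ((n : ℕ) : ZMod p) + z.1 = x * (z.2 - z.1)).card : ℝ) *
        Ph χ V x + 4 * L * (V : ℝ) ^ 2 * (cl B L j).card := by
    intro j _
    have e1 : (V : ℝ) * (((cl B L j).card : ℝ)⁻¹ * ∑ z ∈ pr B L j, ‖Gc χ N z.1 z.2‖) =
        ((cl B L j).card : ℝ)⁻¹ * ∑ z ∈ pr B L j, (V : ℝ) * ‖Gc χ N z.1 z.2‖ := by
      rw [← Finset.mul_sum]
      ring
    rw [e1]
    have e2 : ∑ z ∈ pr B L j, (V : ℝ) * ‖Gc χ N z.1 z.2‖ ≤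
        ∑ z ∈ pr B L j, ∑ x : ZMod p,
        (((range N).filter fun n : ℕ => ((n : ℕ) : ZMod p) + z.1 = x * (z.2 - z.1)).card : ℝ) *
        Ph χ V x + (pr B L j).card * (4 * L * (V : ℝ) ^ 2) := by
      refine (Finset.sum_le_sum (hpair j)).trans ?_
      rw [Finset.sum_add_distrib, Finset.sum_const, nsmul_eq_mul]
    have e3 : ((pr B L j).card : ℝ) ≤ ((cl B L j).card : ℝ) ^ 2 := by
      have h5 : (pr B L j).card ≤ (cl B L j ×ˢ cl B L j).card := card_le_card (filter_subset _ _)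
      rw [card_product] at h5
      have h6 : ((pr B L j).card : ℝ) ≤ ((cl B L j).card : ℝ) * (cl B L j).card := by exact_mod_cast h5
      linarith [sq ((cl B L j).card : ℝ)]
    have e4 : ((cl B L j).card : ℝ)⁻¹ * ((pr B L j).card * (4 * L * (V : ℝ) ^ 2)) ≤
        4 * L * (V : ℝ) ^ 2 * (cl B L j).card := by
      rcases Nat.eq_zero_or_pos (cl B L j).card with h0 | h0
      · rw [h0]
        simp
      · have h0' : (0 : ℝ) < (cl B L j).card := by exact_mod_cast h0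
        rw [inv_mul_le_iff₀ h0']
        calc ((pr B L j).card : ℝ) * (4 * L * (V : ℝ) ^ 2)
            ≤ ((cl B L j).card : ℝ) ^ 2 * (4 * L * (V : ℝ) ^ 2) := by gcongr
          _ = _ := by ring
    calc ((cl B L j).card : ℝ)⁻¹ * ∑ z ∈ pr B L j, (V : ℝ) * ‖Gc χ N z.1 z.2‖
        ≤ ((cl B L j).card : ℝ)⁻¹ * (∑ z ∈ pr B L j, ∑ x : ZMod p,
        (((range N).filter fun n : ℕ => ((n : ℕ) : ZMod p) + z.1 = x * (z.2 - z.1)).card : ℝ) *
        Ph χ V x + (pr B L j).card * (4 * L * (V : ℝ) ^ 2)) :=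
          mul_le_mul_of_nonneg_left e2 (by positivity)
      _ = ((cl B L j).card : ℝ)⁻¹ * (∑ z ∈ pr B L j, ∑ x : ZMod p,
        (((range N).filter fun n : ℕ => ((n : ℕ) : ZMod p) + z.1 = x * (z.2 - z.1)).card : ℝ) *
        Ph χ V x) + ((cl B L j).card : ℝ)⁻¹ * ((pr B L j).card * (4 * L * (V : ℝ) ^ 2)) := by ring
      _ ≤ _ := by linarith
  refine (Finset.sum_le_sum hcell).trans ?_
  rw [Finset.sum_add_distrib, ← Finset.mul_sum, NUS_cell]

end Pool.Agent.PY2
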