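import Pool.Agent.helper95.PY2.Spec

open Finset

namespace Pool.Agent.PY2

theorem WTOT_orth {p : ℕ} [Fact p.Prime] (b : ZMod p) :
    ∑ y : ZMod p, ps (b * y) = if b = 0 then (p : ℂ) else 0 := by
  have h := AddChar.sum_mulShift (R := ZMod p) (R' := ℂ) (ψ := ZMod.stdAddChar (N := p)) b
    (ZMod.isPrimitive_stdAddChar p)
  rw [ZMod.card] at h
  unfold ps
  calc ∑ y : ZMod p, ZMod.stdAddChar (b * y) = ∑ y : ZMod p, ZMod.stdAddChar (y * b) := by
        simp only [mul_comm]
    _ = _ := by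
        rw [h]
        split_ifs <;> simp

theorem WTOT_sq {p : ℕ} [Fact p.Prime] (R : ℕ) (hR : R ≤ p) :
    ∑ y : ZMod p, ‖∑ r ∈ range R, ps ((r : ZMod p) * y)‖ ^ 2 = (p : ℝ) * R := by
  have hC : ((∑ y : ZMod p, ‖∑ r ∈ range R, ps ((r : ZMod p) * y)‖ ^ 2 : ℝ) : ℂ) = (p : ℂ) * R := by
    push_cast
    have h1 : ∀ y : ZMod p, ((‖∑ r ∈ range R, ps ((r : ZMod p) * y)‖ : ℝ) : ℂ) ^ 2 =
        ∑ r ∈ range R, ∑ s ∈ range R, ps (((r : ZMod p) - (s : ZMod p)) * y) := by
      intro y
      rw [← Complex.mul_conj', map_sum, Finset.sum_mul_sum]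
      refine Finset.sum_congr rfl fun r _ => Finset.sum_congr rfl fun s _ => ?_
      unfold ps
      rw [← AddChar.map_neg_eq_conj, ← AddChar.map_add_eq_mul]
      congr 1
      ring
    simp_rw [h1]
    rw [Finset.sum_comm]
    have h2 : ∀ r ∈ range R, ∑ y : ZMod p, ∑ s ∈ range R, ps (((r : ZMod p) - (s : ZMod p)) * y) =
        (p : ℂ) := by
      intro r hr
      rw [Finset.sum_comm]
      have h3 : ∀ s ∈ range R, ∑ y : ZMod p, ps (((r : ZMod p) - (s : ZMod p)) * y) =
          if r = s then (p : ℂ) else 0 := by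
        intro s hs
        rw [WTOT_orth]
        have h4 : ((r : ZMod p) - (s : ZMod p) = 0) ↔ r = s := by
          rw [sub_eq_zero, ZMod.natCast_eq_natCast_iff]
          constructor
          · intro h
            exact Nat.ModEq.eq_of_lt_of_lt h ((mem_range.1 hr).trans_le hR)
              ((mem_range.1 hs).trans_le hR)
          · intro h
            rw [h]
        simp only [h4]
      rw [Finset.sum_congr rfl h3, Finset.sum_ite_eq, if_pos hr]
    rw [Finset.sum_congr rfl h2, Finset.sum_const, card_range, nsmul_eq_mul]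
    ring
  exact_mod_cast hC

theorem WTOT : WTOT_stmt := by
  intro p _ R hR1 hR
  have hR0 : (R : ℝ) ≠ 0 := by
    have : R ≠ 0 := by omega
    exact_mod_cast this
  unfold wf
  rw [← Finset.mul_sum, WTOT_sq R hR]
  field_simp

end Pool.Agent.PY2
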